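import Pool.Agent.H83.FS.Stm

/-!
# MAX: a state in which all white tokens are attached to the front vertex
-/

set_option autoImplicit false

namespace Pool.Agent.H803.FS83

open SimpleGraph Pool.Agent.H83.FS

/-- `s` is connected, avoiding `u, v`, to a neighbour `w ≠ v` of `u`. -/
def Att {V : Type} (Y : SimpleGraph V) (u v s : V) : Prop :=
  ∃ w, Y.Adj u w ∧ w ≠ v ∧ Av Y u v s w

theorem att_or {V : Type} (Y : SimpleGraph V) (hY : Y.Connected) (u v x : V) (hu : x ≠ u)
    (hv : x ≠ v) : Att Y u v x ∨ ∃ w, Y.Adj v w ∧ w ≠ u ∧ Av Y u v x w := by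
  obtain ⟨p⟩ := hY.preconnected x u
  induction p with
  | nil => exact absurd rfl hu
  | @cons a y z hadj _ ih =>
    by_cases h1 : y = z
    · exact Or.inl ⟨a, by rw [← h1]; exact hadj.symm, hv, Cn.refl a⟩
    · by_cases h2 : y = v
      · exact Or.inr ⟨a, by rw [← h2]; exact hadj.symm, hu, Cn.refl a⟩
      · have hs : Av Y z v a y := Cn.single hadj ⟨hu, hv⟩ ⟨h1, h2⟩
        rcases ih h1 h2 with ⟨w, h3, h4, h5⟩ | ⟨w, h3, h4, h5⟩
        · exact Or.inl ⟨w, h3, h4, hs.trans h5⟩
        · exact Or.inr ⟨w, h3, h4, hs.trans h5⟩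

theorem att_trans {V : Type} {Y : SimpleGraph V} {u v s t : V} (h : Av Y u v s t)
    (ht : Att Y u v t) : Att Y u v s := by
  obtain ⟨w, h1, h2, h3⟩ := ht
  exact ⟨w, h1, h2, h.trans h3⟩

/-- A walk of attached vertices avoids a vertex which is not attached. -/
theorem avoid {V : Type} {Y : SimpleGraph V} {u v w' : V} (hw' : ¬ Att Y u v w') {s w : V}
    (huw : Y.Adj u w) (hwv : w ≠ v) (hsv : s ≠ v) (h : Av Y u v s w) :
    Cn Y (fun x => x ≠ v ∧ x ≠ w') s w := by
  unfold Av at h
  unfold Cn at h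
  induction h using Relation.ReflTransGen.head_induction_on with
  | refl => exact Cn.refl _
  | @head a c hac hcw ih =>
    have hc : Av Y u v c w := hcw
    have ha : Av Y u v a w := Cn.trans (Cn.single hac.1 hac.2.1 hac.2.2) hc
    have ha' : a ≠ w' := by
      rintro rfl
      exact hw' ⟨w, huw, hwv, ha⟩
    have hc' : c ≠ w' := by
      rintro rfl
      exact hw' ⟨w, huw, hwv, hc⟩
    exact Cn.trans (Cn.single hac.1 ⟨hsv, ha'⟩ ⟨hac.2.2.2, hc'⟩) (ih hac.2.2.2)

open Classical in
/-- The number of white vertices attached to the front vertex. -/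
noncomputable def cnt {V T : Type} [Fintype V] (Y : SimpleGraph V) (col : T → Bool) (β : Bool)
    (τ : T ≃ V) (c c' : T) : ℕ :=
  (Finset.univ.filter (fun s => pc col τ s = !β ∧ Att Y (τ c) (τ c') s)).card

theorem fst_of_rch (h3 : S_link) {V T : Type} [DecidableEq T] {Y : SimpleGraph V}
    {col : T → Bool} {σ τ : T ≃ V} {b b' : T} (hr : Rch Y col σ τ) (h : D Y col σ b b')
    (ha : Y.Adj (τ b) (τ b')) : FSt Y col τ b b' :=
  ⟨⟨h.1, h.2.1, fun hL => h.2.2 ((h3 V T Y col).1 τ σ b b' hr.symm h.2.1 hL)⟩, ha⟩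

/-- First part: bring a white token to a neighbour of the back vertex. -/
theorem stepA (h0 : S_slide) (h3 : S_link) {V T : Type} [Fintype V] [DecidableEq V]
    [DecidableEq T] (Y : SimpleGraph V) (col : T → Bool) (β : Bool) (hY : Y.Connected)
    (τ : T ≃ V) (c c' : T) (hc : col c = β) (hF : FSt Y col τ c c') (s : V)
    (hs : pc col τ s = !β) (hsn : ¬ Att Y (τ c) (τ c') s) :
    ∃ τ' : T ≃ V, FSt Y col τ' c c' ∧ cnt Y col β τ' c c' = cnt Y col β τ c c' ∧
      ∃ w', pc col τ' w' = !β ∧ Y.Adj (τ' c') w' ∧ w' ≠ τ' c ∧ ¬ Att Y (τ' c) (τ' c') w' := by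
  have hc' : col c' = β := by rw [← hF.1.2.1]; exact hc
  have hpu : pc col τ (τ c) = β := by unfold pc; rw [Equiv.symm_apply_apply]; exact hc
  have hpv : pc col τ (τ c') = β := by unfold pc; rw [Equiv.symm_apply_apply]; exact hc'
  have hβ : β ≠ !β := by cases β <;> simp
  have hsu : s ≠ τ c := by
    rintro rfl
    rw [hpu] at hs
    exact hβ hs
  have hsv : s ≠ τ c' := by
    rintro rfl
    rw [hpv] at hs
    exact hβ hs
  rcases att_or Y hY (τ c) (τ c') s hsu hsv with h | ⟨w', hw1, hw2, hw3⟩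
  · exact absurd h hsn
  · have hw'n : ¬ Att Y (τ c) (τ c') w' := fun h => hsn (att_trans hw3 h)
    by_cases hw : pc col τ w' = !β
    · exact ⟨τ, hF, rfl, w', hw, hw1, hw2, hw'n⟩
    · have hne : pc col τ s ≠ pc col τ w' := by
        rw [hs]
        exact fun h => hw h.symm
      obtain ⟨τ', hr, hfix, hs', hw', hoth⟩ :=
        h0 V T Y col (fun x => x ≠ τ c ∧ x ≠ τ c') s w' hw3 τ hne
      have e1 : τ' c = τ c := by
        have := hfix (τ c) (by simp)
        rw [Equiv.symm_apply_apply, Equiv.symm_apply_eq] at this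
        exact this.symm
      have e2 : τ' c' = τ c' := by
        have := hfix (τ c') (by simp)
        rw [Equiv.symm_apply_apply, Equiv.symm_apply_eq] at this
        exact this.symm
      refine ⟨τ', fst_of_rch h3 hr hF.1 (by rw [e1, e2]; exact hF.2), ?_, w', ?_, ?_, ?_, ?_⟩
      · unfold cnt
        rw [e1, e2]
        apply congrArg
        ext x
        simp only [Finset.mem_filter, Finset.mem_univ, true_and]
        constructor
        · rintro ⟨h1, h2⟩
          have hxs : x ≠ s := by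
            rintro rfl
            exact hsn h2
          have hxw : x ≠ w' := by
            rintro rfl
            exact hw'n h2
          rw [hoth x hxs hxw] at h1
          exact ⟨h1, h2⟩
        · rintro ⟨h1, h2⟩
          have hxs : x ≠ s := by
            rintro rfl
            exact hsn h2
          have hxw : x ≠ w' := by
            rintro rfl
            exact hw'n h2
          rw [← hoth x hxs hxw] at h1
          exact ⟨h1, h2⟩
      · rw [hw', hs]
      · rw [e2]
        exact hw1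
      · rw [e1]
        exact hw2
      · rw [e1, e2]
        exact hw'n

/-- Second part: the pair moves backwards. -/
theorem stepB (h3 : S_link) {V T : Type} [Fintype V] [DecidableEq V]
    [DecidableEq T] (Y : SimpleGraph V) (col : T → Bool) (β : Bool)
    (τ : T ≃ V) (c c' : T) (hc : col c = β) (hF : FSt Y col τ c c') (w' : V)
    (hw : pc col τ w' = !β) (hvw : Y.Adj (τ c') w') (hwu : w' ≠ τ c)
    (hwn : ¬ Att Y (τ c) (τ c') w') :
    ∃ τ' : T ≃ V, FSt Y col τ' c c' ∧ cnt Y col β τ c c' < cnt Y col β τ' c c' := by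
  have hc' : col c' = β := by rw [← hF.1.2.1]; exact hc
  have hpu : pc col τ (τ c) = β := by unfold pc; rw [Equiv.symm_apply_apply]; exact hc
  have hpv : pc col τ (τ c') = β := by unfold pc; rw [Equiv.symm_apply_apply]; exact hc'
  have hβ : β ≠ !β := by cases β <;> simp
  have huv : Y.Adj (τ c) (τ c') := hF.2
  have hne : τ c ≠ τ c' := huv.ne
  have hwv : w' ≠ τ c' := hvw.ne'
  have m1 : Rch Y col τ (τ.trans (Equiv.swap (τ c') w')) := by
    apply move hvw
    rw [hpv, hw]
    exact hβ
  have p1 : pc col (τ.trans (Equiv.swap (τ c') w')) (τ c) = β := by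
    rw [pc_move, Equiv.swap_apply_of_ne_of_ne hne hwu.symm]
    exact hpu
  have p2 : pc col (τ.trans (Equiv.swap (τ c') w')) (τ c') = !β := by
    rw [pc_move, Equiv.swap_apply_left]
    exact hw
  have m2 : Rch Y col (τ.trans (Equiv.swap (τ c') w'))
      ((τ.trans (Equiv.swap (τ c') w')).trans (Equiv.swap (τ c) (τ c'))) := by
    apply move huv
    rw [p1, p2]
    exact hβ
  have e1 : ((τ.trans (Equiv.swap (τ c') w')).trans (Equiv.swap (τ c) (τ c'))) c = τ c' := by
    simp only [Equiv.trans_apply]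
    rw [Equiv.swap_apply_of_ne_of_ne hne hwu.symm, Equiv.swap_apply_left]
  have e2 : ((τ.trans (Equiv.swap (τ c') w')).trans (Equiv.swap (τ c) (τ c'))) c' = w' := by
    simp only [Equiv.trans_apply]
    rw [Equiv.swap_apply_left, Equiv.swap_apply_of_ne_of_ne hwu hwv]
  refine ⟨(τ.trans (Equiv.swap (τ c') w')).trans (Equiv.swap (τ c) (τ c')),
    fst_of_rch h3 (m1.trans m2) hF.1 (by rw [e1, e2]; exact hvw), ?_⟩
  unfold cnt
  rw [e1, e2]
  apply Finset.card_lt_card
  rw [Finset.ssubset_iff_of_subset]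
  · refine ⟨τ c, ?_, ?_⟩
    · simp only [Finset.mem_filter, Finset.mem_univ, true_and]
      refine ⟨?_, τ c, huv.symm, hwu.symm, Cn.refl _⟩
      rw [pc_move, Equiv.swap_apply_left]
      exact p2
    · simp only [Finset.mem_filter, Finset.mem_univ, true_and]
      rintro ⟨h, _⟩
      rw [hpu] at h
      exact hβ h
  · intro s hs
    simp only [Finset.mem_filter, Finset.mem_univ, true_and] at hs ⊢
    obtain ⟨h1, h2⟩ := hs
    have hsu : s ≠ τ c := by
      rintro rfl
      rw [hpu] at h1
      exact hβ h1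
    have hsv : s ≠ τ c' := by
      rintro rfl
      rw [hpv] at h1
      exact hβ h1
    have hsw : s ≠ w' := by
      rintro rfl
      exact hwn h2
    refine ⟨?_, ?_⟩
    · rw [pc_move, pc_move, Equiv.swap_apply_of_ne_of_ne hsu hsv,
        Equiv.swap_apply_of_ne_of_ne hsv hsw]
      exact h1
    · obtain ⟨w, h4, h5, h6⟩ := h2
      have h7 := avoid hwn h4 h5 hsv h6
      have h8 : w ≠ w' := by
        rintro rfl
        exact hwn ⟨w, h4, h5, Cn.refl _⟩
      exact ⟨τ c, huv.symm, hwu.symm,
        Cn.trans h7 (Cn.single h4.symm ⟨h5, h8⟩ ⟨hne, hwu.symm⟩)⟩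

/-- MAX. -/
theorem max (h0 : S_slide) (h3 : S_link) : S_max := by
  intro V T _ _ _ _ Y col β hY _ σ b b' hb hF
  have main : ∀ (m : ℕ) (σ : T ≃ V), FSt Y col σ b b' →
      Fintype.card V - cnt Y col β σ b b' ≤ m →
      ∃ τ : T ≃ V, FSt Y col τ b b' ∧ ∀ s, pc col τ s = !β → Att Y (τ b) (τ b') s := by
    intro m
    induction m with
    | zero =>
      intro σ hF hm
      by_contra hcon
      push Not at hcon
      obtain ⟨s, hs, hsn⟩ := hcon σ hF
      have h1 : cnt Y col β σ b b' < Fintype.card V := by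
        unfold cnt
        classical
        rw [← Finset.card_univ]
        apply Finset.card_lt_card
        rw [Finset.ssubset_iff_of_subset (Finset.subset_univ _)]
        refine ⟨s, Finset.mem_univ _, ?_⟩
        simp only [Finset.mem_filter, Finset.mem_univ, true_and]
        exact fun h => hsn h.2
      omega
    | succ m ih =>
      intro σ hF hm
      by_cases hall : ∀ s, pc col σ s = !β → Att Y (σ b) (σ b') s
      · exact ⟨σ, hF, hall⟩
      · push Not at hall
        obtain ⟨s, hs, hsn⟩ := hall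
        obtain ⟨τ, hF1, hc1, w', hw1, hw2, hw3, hw4⟩ := stepA h0 h3 Y col β hY σ b b' hb hF s hs hsn
        obtain ⟨τ', hF2, hc2⟩ := stepB h3 Y col β τ b b' hb hF1 w' hw1 hw2 hw3 hw4
        apply ih τ' hF2
        omega
  obtain ⟨τ, h1, h2⟩ := main _ σ hF le_rfl
  exact ⟨τ, b, b', h1, hb, h2⟩

end Pool.Agent.H803.FS83
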